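import Pool.Agent.L7h14.Sel.Pt

/-!
# MP_a812b2_nt: a pointwise density theorem for all congruence subgroups of `SL(2,ℤ)`

Let `Γ` be a congruence subgroup of `SL(2,ℤ)` of index `n`, normal in the subgroup `Λ` of `SL(2,ℤ)`.
For every orthonormal family `f i` of square integrable eigenfunctions on `Γ \ ℍ` with eigenvalues
`1/4 - ν_i ^ 2`, `0 ≤ ν_i ≤ 1/2`, and every point `z` whose `SL(2,ℤ)`-orbit stays below height `Y`,
`∑ n ^ (2 ν_i) |f i (g z)| ^ 2`, summed over `i` and over `g` inequivalent modulo `Λ`, is at most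
`C n ^ (1 + ε) / [Λ : Γ]`, where `C` depends only on `ε` and `Y`.
-/

set_option autoImplicit false

open MeasureTheory
open scoped MatrixGroups UpperHalfPlane ComplexConjugate

namespace Pool.Agent.Results.MP_a812b2_nt.PointwiseDensity

/-- `f` is a square integrable eigenfunction of the Laplacian `-y² (∂²/∂x² + ∂²/∂y²)` on `Γ \ ℍ`,
with eigenvalue `1/4 - ν²` (the conventions are those of the frozen statement). -/
structure IsEigenfunction (Γ : Subgroup SL(2, ℤ)) (ν : ℝ) (f : ℂ → ℂ) : Prop where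
  /-- `f` is smooth on the upper half plane -/
  smooth : ContDiffOn ℝ (⊤ : ℕ∞) f {w : ℂ | 0 < w.im}
  /-- `f` is `Γ`-invariant -/
  invariant : ∀ γ ∈ Γ, ∀ z : ℍ, f ((γ • z : ℍ) : ℂ) = f (z : ℂ)
  /-- `-y² (f_xx + f_yy) = (1/4 - ν²) f` -/
  laplace : ∀ z : ℍ,
    -((z.im : ℂ) ^ 2) *
      (deriv (fun s : ℝ => deriv (fun t : ℝ => f ((t : ℂ) + (z.im : ℂ) * Complex.I)) s) z.re
        + deriv (fun s : ℝ => deriv (fun t : ℝ => f ((z.re : ℂ) + (t : ℂ) * Complex.I)) s) z.im)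
      = ((1 / 4 - ν ^ 2 : ℝ) : ℂ) * f (z : ℂ)
  /-- `f` is square integrable for `dx dy / y²` on every translate of the fundamental domain -/
  sqIntegrable : ∀ γ : SL(2, ℤ), IntegrableOn (fun w : ℂ => ‖f w‖ ^ 2 / w.im ^ 2)
    ((fun z : ℍ => ((γ • z : ℍ) : ℂ)) '' ModularGroup.fd)

/-- The scalar product `∫_{Γ\ℍ} conj f g dx dy / y²` of two `Γ`-invariant functions, as the sum over
the cosets `q` of `Γ` of the integral over the translate by `q⁻¹` of the open standard fundamental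
domain of `SL(2,ℤ)` (Mathlib's `volume` on `ℍ` is `dx dy / y²`). -/
noncomputable def petersson (Γ : Subgroup SL(2, ℤ)) (f g : ℂ → ℂ) : ℂ :=
  ∑' q : SL(2, ℤ) ⧸ Γ, ∫ z : ℍ in ModularGroup.fdo,
    conj (f ((q.out⁻¹ • z : ℍ) : ℂ)) * g ((q.out⁻¹ • z : ℍ) : ℂ)

/-- The pointwise density theorem: for all `ε > 0` and `Y` there is `C` such that, for every
congruence subgroup `Γ` normal in a subgroup `Λ` of `SL(2,ℤ)`, every orthonormal family of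
eigenfunctions `f i` on `Γ \ ℍ` with eigenvalues `1/4 - (ν i)²`, `0 ≤ ν i ≤ 1/2`, every `z` whose
orbit stays below height `Y`, and every finite set `S` of elements of `SL(2,ℤ)` in different right
cosets of `Λ`: `∑_{g ∈ S} ∑_i n ^ (2 ν i) |f i (g z)|² ≤ C n ^ (1 + ε) / [Λ : Γ]`, `n` the index. -/
theorem result : ∀ ε Y : ℝ, 0 < ε → ∃ C : ℝ, 0 < C ∧ ∀ Γ Λ : Subgroup SL(2, ℤ),
    (∃ N : ℕ, 0 < N ∧ CongruenceSubgroup.Gamma N ≤ Γ) → Γ ≤ Λ →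
    (∀ g ∈ Λ, ∀ γ ∈ Γ, g * γ * g⁻¹ ∈ Γ) →
    ∀ (k : ℕ) (ν : Fin k → ℝ) (f : Fin k → ℂ → ℂ),
      (∀ i, 0 ≤ ν i) → (∀ i, ν i ≤ 1 / 2) → (∀ i, IsEigenfunction Γ (ν i) (f i)) →
      (∀ i j, petersson Γ (f i) (f j) = if i = j then 1 else 0) →
      ∀ z : ℍ, (∀ γ : SL(2, ℤ), (γ • z).im ≤ Y) →
      ∀ S : Finset SL(2, ℤ), (∀ g ∈ S, ∀ h ∈ S, g * h⁻¹ ∈ Λ → g = h) →
        ∑ g ∈ S, ∑ i, (Γ.index : ℝ) ^ (2 * ν i) * ‖f i ((g • z : ℍ) : ℂ)‖ ^ 2 ≤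
          C * (Γ.index : ℝ) ^ (1 + ε) / (Γ.relIndex Λ : ℝ) := by
  intro ε Y hε
  obtain ⟨C, hC, h⟩ := Pool.Agent.L7h14.Sel.pt_main ε Y hε
  exact ⟨C, hC, fun Γ Λ hΓ hΛ hn k ν f h0 h1 hf ho z hz S hS =>
    h Γ Λ hΓ hΛ hn k ν f h0 h1
      (fun i => ⟨(hf i).smooth, (hf i).invariant, (hf i).laplace, (hf i).sqIntegrable⟩) ho z hz S hS⟩

end Pool.Agent.Results.MP_a812b2_nt.PointwiseDensity
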