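import Pool.Agent.L7h14.Sel.RepC

/-!
# MP_a812b2_nt: a pointwise density theorem for unitary representations of `SL(2,ℤ/N)`

Let `ρ` be a unitary representation of `SL(2,ℤ/N)` of dimension `d`, let `K` be the dimension of its
commutant (`K = 1` if `ρ` is irreducible), and let `F i : ℍ → ℂ^d` be an orthonormal family of square
integrable eigenfunctions of the Laplacian with `F i (γ z) = ρ(γ) F i (z)` and eigenvalues
`1/4 - ν_i ^ 2`, `0 ≤ ν_i ≤ 1/2`.  Then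
`∑ X ^ (2 ν_i) |F i (z)| ^ 2 ≤ C (N X) ^ ε (√K (N + X) + d)` for all `X ≥ 1` and all `z` whose
`SL(2,ℤ)`-orbit stays below height `Y`, where `C` depends only on `ε` and `Y`.
-/

set_option autoImplicit false

open MeasureTheory
open scoped MatrixGroups UpperHalfPlane ComplexConjugate

namespace Pool.Agent.Results.MP_a812b2_nt.RepresentationPointwise

/-- `F` is a smooth `ρ`-equivariant eigenfunction of the Laplacian `-y² (∂²/∂x² + ∂²/∂y²)` with
values in `ℂ^d` and eigenvalue `1/4 - ν²`, for a representation `ρ` of `SL(2,ℤ/N)`. -/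
structure IsEquivariantEigenfunction {N d : ℕ}
    (ρ : Representation ℂ SL(2, ZMod N) (EuclideanSpace ℂ (Fin d))) (ν : ℝ)
    (F : ℂ → EuclideanSpace ℂ (Fin d)) : Prop where
  /-- `F` is smooth on the upper half plane -/
  smooth : ContDiffOn ℝ (⊤ : ℕ∞) F {w : ℂ | 0 < w.im}
  /-- `F (γ z) = ρ (γ mod N) F (z)` for `γ` in `SL(2,ℤ)` -/
  equivariant : ∀ (γ : SL(2, ℤ)) (z : ℍ), F ((γ • z : ℍ) : ℂ) =
    ρ (Matrix.SpecialLinearGroup.map (Int.castRingHom (ZMod N)) γ) (F (z : ℂ))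
  /-- `-y² (F_xx + F_yy) = (1/4 - ν²) F` -/
  laplace : ∀ z : ℍ,
    -((z.im : ℂ) ^ 2) •
      (deriv (fun s : ℝ => deriv (fun t : ℝ => F ((t : ℂ) + (z.im : ℂ) * Complex.I)) s) z.re
        + deriv (fun s : ℝ => deriv (fun t : ℝ => F ((z.re : ℂ) + (t : ℂ) * Complex.I)) s) z.im)
      = ((1 / 4 - ν ^ 2 : ℝ) : ℂ) • F (z : ℂ)

/-- The pointwise density theorem for unitary representations: orthonormal (for the scalar product
`∫ ⟨F, G⟩ dx dy / y²` over the open standard fundamental domain of `SL(2,ℤ)`) `ρ`-equivariant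
eigenfunctions `F i` with eigenvalues `1/4 - (ν i)²`, `0 ≤ ν i ≤ 1/2`, satisfy
`∑ i, X ^ (2 ν i) ‖F i z‖² ≤ C (N X) ^ ε (√K (N + X) + d)` for all `X ≥ 1` and all `z` whose orbit
stays below height `Y`, where `d` is the dimension of `ρ` and `K` the dimension of the space of its
intertwining operators. -/
theorem result : ∀ ε Y : ℝ, 0 < ε → ∃ C : ℝ, 0 < C ∧ ∀ (N : ℕ), 0 < N → ∀ (d : ℕ)
    (ρ : Representation ℂ SL(2, ZMod N) (EuclideanSpace ℂ (Fin d))),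
    (∀ (g : SL(2, ZMod N)) (x : EuclideanSpace ℂ (Fin d)), ‖ρ g x‖ = ‖x‖) →
    ∀ (k : ℕ) (ν : Fin k → ℝ) (F : Fin k → ℂ → EuclideanSpace ℂ (Fin d)),
      (∀ i, 0 ≤ ν i) → (∀ i, ν i ≤ 1 / 2) → (∀ i, IsEquivariantEigenfunction ρ (ν i) (F i)) →
      (∀ i j, ∫ z : ℍ in ModularGroup.fdo, inner ℂ (F i (z : ℂ)) (F j (z : ℂ)) =
        if i = j then (1 : ℂ) else 0) →
      ∀ z : ℍ, (∀ γ : SL(2, ℤ), (γ • z).im ≤ Y) → ∀ X : ℝ, 1 ≤ X →
        ∑ i, X ^ (2 * ν i) * ‖F i (z : ℂ)‖ ^ 2 ≤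
          C * (N * X) ^ ε * (√(Module.finrank ℂ (ρ.IntertwiningMap ρ)) * (N + X) + d) := by
  intro ε Y hε
  obtain ⟨C, hC, h⟩ := Pool.Agent.L7h14.Sel.rep_pt ε Y hε
  exact ⟨C, hC, fun N hN d ρ hρ k ν F h0 h1 hF ho z hz X hX =>
    h N hN d ρ hρ k ν F h0 h1
      (fun i => ⟨(hF i).smooth, (hF i).equivariant, (hF i).laplace⟩) ho z hz X hX⟩

end Pool.Agent.Results.MP_a812b2_nt.RepresentationPointwise
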