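import Pool.Agent.L7h14.Sel.Small

/-!
# MP_a812b2_nt: cuspidal eigenvalues at most 1/4 in the unitary representations of `SL(2,ℤ/N)`

Let `N ≥ 2`, let `ρ` be a unitary representation of `SL(2,ℤ/N)` of dimension `d`, let `K` be the
dimension of its commutant (`K = 1` if `ρ` is irreducible), and let `F i : ℍ → ℂ^d` be an orthonormal
family of square integrable cuspidal eigenfunctions of the Laplacian with `F i (γ z) = ρ(γ) F i (z)`
and eigenvalues `1/4 - ν_i ^ 2`, `0 ≤ ν_i ≤ 1/2` (the eigenvalue `1/4` is included).  Then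
`∑ N ^ (δ ν_i) ≤ C (d + √K N ^ (1/2 + 24 δ)) / (log N) ^ 3`, where `C` depends only on `δ > 0`.
-/

set_option autoImplicit false

open MeasureTheory
open scoped MatrixGroups UpperHalfPlane ComplexConjugate

namespace Pool.Agent.Results.MP_a812b2_nt.SmallEigenvalues

/-- `F` is a smooth cuspidal `ρ`-equivariant eigenfunction of the Laplacian `-y² (∂²/∂x² + ∂²/∂y²)`
with values in `ℂ^d` and eigenvalue `1/4 - ν²`, for a representation `ρ` of `SL(2,ℤ/N)`. -/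
structure IsEquivariantCuspForm {N d : ℕ}
    (ρ : Representation ℂ SL(2, ZMod N) (EuclideanSpace ℂ (Fin d))) (ν : ℝ)
    (F : ℂ → EuclideanSpace ℂ (Fin d)) : Prop where
  /-- `F` is smooth on the upper half plane -/
  smooth : ContDiffOn ℝ (⊤ : ℕ∞) F {w : ℂ | 0 < w.im}
  /-- `F (γ z) = ρ (γ mod N) F (z)` for `γ` in `SL(2,ℤ)` -/
  equivariant : ∀ (γ : SL(2, ℤ)) (z : ℍ), F ((γ • z : ℍ) : ℂ) =
    ρ (Matrix.SpecialLinearGroup.map (Int.castRingHom (ZMod N)) γ) (F (z : ℂ))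
  /-- `-y² (F_xx + F_yy) = (1/4 - ν²) F` -/
  laplace : ∀ z : ℍ,
    -((z.im : ℂ) ^ 2) •
      (deriv (fun s : ℝ => deriv (fun t : ℝ => F ((t : ℂ) + (z.im : ℂ) * Complex.I)) s) z.re
        + deriv (fun s : ℝ => deriv (fun t : ℝ => F ((z.re : ℂ) + (t : ℂ) * Complex.I)) s) z.im)
      = ((1 / 4 - ν ^ 2 : ℝ) : ℂ) • F (z : ℂ)
  /-- the integrals of `F` over the horocycles `{x + i y : 0 ≤ x ≤ N}` vanish -/
  cuspidal : ∀ y : ℝ, 0 < y → ∫ x in (0 : ℝ)..N, F ((x : ℂ) + (y : ℂ) * Complex.I) = 0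

/-- Cuspidal eigenvalues at most `1/4` in the unitary representations of `SL(2,ℤ/N)`: orthonormal
(for the scalar product `∫ ⟨F, G⟩ dx dy / y²` over the open standard fundamental domain of
`SL(2,ℤ)`) cuspidal `ρ`-equivariant eigenfunctions `F i` with eigenvalues `1/4 - (ν i)²`,
`0 ≤ ν i ≤ 1/2`, satisfy `∑ i, N ^ (δ ν i) ≤ C (d + √K N ^ (1/2 + 24 δ)) / (log N) ^ 3`, where `d` is
the dimension of `ρ` and `K` the dimension of the space of its intertwining operators; in particular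
their number is at most the right hand side. -/
theorem result : ∀ δ : ℝ, 0 < δ → ∃ C : ℝ, 0 < C ∧ ∀ (N : ℕ), 2 ≤ N → ∀ (d : ℕ)
    (ρ : Representation ℂ SL(2, ZMod N) (EuclideanSpace ℂ (Fin d))),
    (∀ (g : SL(2, ZMod N)) (x : EuclideanSpace ℂ (Fin d)), ‖ρ g x‖ = ‖x‖) →
    ∀ (k : ℕ) (ν : Fin k → ℝ) (F : Fin k → ℂ → EuclideanSpace ℂ (Fin d)),
      (∀ i, 0 ≤ ν i) → (∀ i, ν i ≤ 1 / 2) → (∀ i, IsEquivariantCuspForm ρ (ν i) (F i)) →
      (∀ i j, ∫ z : ℍ in ModularGroup.fdo, inner ℂ (F i (z : ℂ)) (F j (z : ℂ)) =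
        if i = j then (1 : ℂ) else 0) →
      (∑ i, (N : ℝ) ^ (δ * ν i) ≤
        C * (d + √(Module.finrank ℂ (ρ.IntertwiningMap ρ)) * (N : ℝ) ^ (1 / 2 + 24 * δ)) /
          Real.log N ^ 3) ∧
      (k : ℝ) ≤
        C * (d + √(Module.finrank ℂ (ρ.IntertwiningMap ρ)) * (N : ℝ) ^ (1 / 2 + 24 * δ)) /
          Real.log N ^ 3 := by
  intro δ hδ
  obtain ⟨C, hC, h⟩ := Pool.Agent.L7h14.Sel.small δ hδ
  refine ⟨C, hC, fun N hN d ρ hρ k ν F h0 h1 hF ho => ?_⟩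
  have h2 := h N hN d ρ hρ k ν F h0 h1
      (fun i => ⟨(hF i).smooth, (hF i).equivariant, (hF i).laplace⟩)
      (fun i => (hF i).cuspidal) ho
  refine ⟨h2, le_trans ?_ h2⟩
  have hN1 : (1 : ℝ) ≤ N := by exact_mod_cast (by omega : 1 ≤ N)
  calc (k : ℝ) = ∑ _i : Fin k, (1 : ℝ) := by simp
    _ ≤ ∑ i, (N : ℝ) ^ (δ * ν i) := Finset.sum_le_sum fun i _ =>
        Real.one_le_rpow hN1 (mul_nonneg hδ.le (h0 i))

end Pool.Agent.Results.MP_a812b2_nt.SmallEigenvalues
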